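import Pool.Agent.helper32.EX.SpecA

/-!
# Project ex (MP_561ff4_al), row ANT: antisymmetry of the bracket
-/

set_option autoImplicit false

namespace Pool.Agent.EX

noncomputable section

section
variable {n : ℕ} {C : Matrix (Fin n) (Fin n) ℤ} [hC : Fact (Dyn C)] {R : Type} [CommRing R]

theorem ANT_rt_neg (α : Rt C) : rt R (-α) = -rt R α := by
  funext i
  simp [rt]

theorem ANT_ev_ev (α β : Rt C) (s t : R) : br (ev C α s) (ev C β t) = -br (ev C β t) (ev C α s) := by
  obtain ⟨h1, h2⟩ := bd α β
  by_cases h0 : 0 ≤ Q C α.1 β.1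
  · rw [br_ev_zero h0, br_ev_zero (by rw [Q_comm]; exact h0), neg_zero]
  by_cases hm : Q C α.1 β.1 = -1
  · have hr : Q C (α.1 + β.1) (α.1 + β.1) = 2 := by
      rw [Q_add_self, hm]
      norm_num
    have e1 := br_ev_add (R := R) (γ := ⟨α.1 + β.1, hr⟩) (α := α) (β := β) rfl s t
    have e2 := br_ev_add (R := R) (γ := ⟨α.1 + β.1, hr⟩) (α := β) (β := α) (add_comm _ _) t s
    rw [e1, e2, eps_symm_odd (Or.inr hm)]
    ext δ
    · simp [ev]
    · simp only [ev_snd, Prod.snd_neg, Pi.neg_apply]
      split_ifs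
      · push_cast
        ring
      · ring
  · have hm2 : Q C α.1 β.1 = -2 := by omega
    obtain rfl := Q_eq_neg_two hm2
    have e1 := br_ev_neg (R := R) (C := C) α s t
    have e2 := br_ev_neg (R := R) (C := C) (-α) t s
    rw [rt_neg_neg] at e2
    rw [e1, e2, ANT_rt_neg]
    ext δ
    · simp [mul_comm]
    · simp

theorem ANT_h_ev (h : Fin n → R) (α : Rt C) (t : R) :
    br ((h, 0) : LV C R) (ev C α t) = -br (ev C α t) ((h, 0) : LV C R) := by
  rw [br_h_ev, br_ev_h]
  ext δ
  · simp [ev]
  · simp only [ev_snd, Prod.snd_neg, Pi.neg_apply]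
    split_ifs
    · ring
    · ring

theorem ANT_anti (u v : LV C R) : br u v = -br v u := by
  refine LV_ind (P := fun u => br u v = -br v u) ?_ ?_ ?_ ?_ u
  · simp
  · intro a b ha hb
    rw [br_add_left, br_add_right, ha, hb, neg_add]
  · intro i t
    refine LV_ind (P := fun v => br ((Pi.single i t, 0) : LV C R) v = -br v (Pi.single i t, 0)) ?_ ?_ ?_ ?_ v
    · simp
    · intro a b ha hb
      rw [br_add_left, br_add_right, ha, hb, neg_add]
    · intro j t'
      rw [br_h_h, br_h_h, neg_zero]
    · intro α t'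
      exact ANT_h_ev _ α t'
  · intro α t
    refine LV_ind (P := fun v => br (ev C α t) v = -br v (ev C α t)) ?_ ?_ ?_ ?_ v
    · simp
    · intro a b ha hb
      rw [br_add_left, br_add_right, ha, hb, neg_add]
    · intro j t'
      rw [ANT_h_ev, neg_neg]
    · intro β t'
      exact ANT_ev_ev α β t t'

theorem ANT_self (u : LV C R) : br u u = 0 := by
  refine LV_ind (P := fun u => br u u = 0) ?_ ?_ ?_ ?_ u
  · simp
  · intro a b ha hb
    rw [br_add_left, br_add_right, br_add_right, ha, hb, zero_add, add_zero, ANT_anti a b, neg_add_cancel]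
  · intro i t
    exact br_h_h _ _
  · intro α t
    apply br_ev_zero
    rw [α.2]
    norm_num

end

theorem ANT : ANT_stmt := by
  intro n C hC R _ u v
  exact ⟨ANT_anti u v, ANT_self u⟩

end

end Pool.Agent.EX
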