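import Pool.Agent.helper32.EX.SpecA

/-!
# Project ex (MP_561ff4_al), row AUR: the identities over every commutative ring
-/

set_option autoImplicit false

namespace Pool.Agent.EX

noncomputable section

section
variable {n : ℕ} {C : Matrix (Fin n) (Fin n) ℤ} [hC : Fact (Dyn C)] {R : Type} [CommRing R]

/-- the coordinatewise cast -/
def AUR_c (R : Type) [CommRing R] (u : LV C ℤ) : LV C R := (fun i => (u.1 i : R), fun α => (u.2 α : R))

omit hC in
theorem AUR_c_add (u v : LV C ℤ) : AUR_c R (u + v) = AUR_c R u + AUR_c R v := by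
  ext δ <;> simp [AUR_c]

omit hC in
theorem AUR_c_smul (a : ℤ) (u : LV C ℤ) : AUR_c R (a • u) = (a : R) • AUR_c R u := by
  ext δ <;> simp [AUR_c]

omit hC in
theorem AUR_c_zero : AUR_c R (0 : LV C ℤ) = 0 := by
  ext δ <;> simp [AUR_c]

omit hC in
theorem AUR_bl (h k : Fin n → ℤ) : bl C (fun i => (h i : R)) (fun i => (k i : R)) = ((bl C h k : ℤ) : R) := by
  simp only [bl]
  push_cast
  rfl

omit hC in
theorem AUR_ext (φ : Rt C → ℤ) (w : Fin n → ℤ) : ext (fun α => (φ α : R)) w = ((ext φ w : ℤ) : R) := by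
  simp only [ext]
  split_ifs
  · rfl
  · simp

omit hC in
theorem AUR_rt (α : Rt C) : rt R α = fun i => ((rt ℤ α i : ℤ) : R) := by
  funext i
  simp [rt]

theorem AUR_br (u v : LV C ℤ) : AUR_c R (br u v) = br (AUR_c R u) (AUR_c R v) := by
  ext δ
  · simp only [AUR_c, br, Prod.fst, Pi.neg_apply, Finset.sum_apply, Pi.smul_apply, smul_eq_mul, rt]
    push_cast
    rfl
  · have e : ∀ (h : Fin n → ℤ) (γ : Rt C),
        bl C (fun i => (h i : R)) (rt R γ) = ((bl C h (rt ℤ γ) : ℤ) : R) := by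
      intro h γ
      rw [AUR_rt, AUR_bl]
    simp only [AUR_c, br, AUR_ext, e]
    push_cast
    rfl

theorem AUR_fo (u v : LV C ℤ) : fo (AUR_c R u) (AUR_c R v) = ((fo u v : ℤ) : R) := by
  simp only [AUR_c, fo, AUR_bl]
  push_cast
  rfl

omit hC in
theorem AUR_ev (α : Rt C) : AUR_c R (ev C α 1) = ev C α 1 := by
  ext δ
  · simp [AUR_c, ev]
  · simp only [AUR_c, ev_snd]
    split_ifs <;> simp

omit hC in
theorem AUR_single (i : Fin n) : AUR_c R ((Pi.single i 1, 0) : LV C ℤ) = (Pi.single i 1, 0) := by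
  ext δ
  · simp only [AUR_c, Pi.single_apply]
    split_ifs <;> simp
  · simp [AUR_c]

/-- the first defect -/
def AUR_T1 (α : Rt C) (u v : LV C R) : LV C R :=
  br (fo (ev C α 1) u • ev C α 1) v + br (br (ev C α 1) u) (br (ev C α 1) v) +
    br u (fo (ev C α 1) v • ev C α 1) - fo (ev C α 1) (br u v) • ev C α 1

/-- the second defect -/
def AUR_T2 (α : Rt C) (u v : LV C R) : LV C R :=
  br (br (ev C α 1) u) (fo (ev C α 1) v • ev C α 1) + br (fo (ev C α 1) u • ev C α 1) (br (ev C α 1) v)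

theorem AUR_T1_add_left (α : Rt C) (u u' v : LV C R) :
    AUR_T1 α (u + u') v = AUR_T1 α u v + AUR_T1 α u' v := by
  simp only [AUR_T1, fo_add_right, add_smul, br_add_left, br_add_right]
  abel

theorem AUR_T1_add_right (α : Rt C) (u v v' : LV C R) :
    AUR_T1 α u (v + v') = AUR_T1 α u v + AUR_T1 α u v' := by
  simp only [AUR_T1, fo_add_right, add_smul, br_add_left, br_add_right]
  abel

theorem AUR_T1_smul_left (α : Rt C) (a : R) (u v : LV C R) : AUR_T1 α (a • u) v = a • AUR_T1 α u v := by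
  simp only [AUR_T1, fo_smul_right, br_smul_left, br_smul_right, smul_sub, smul_add, smul_smul, mul_comm a]

theorem AUR_T1_smul_right (α : Rt C) (a : R) (u v : LV C R) : AUR_T1 α u (a • v) = a • AUR_T1 α u v := by
  simp only [AUR_T1, fo_smul_right, br_smul_left, br_smul_right, smul_sub, smul_add, smul_smul, mul_comm a]

theorem AUR_T2_add_left (α : Rt C) (u u' v : LV C R) :
    AUR_T2 α (u + u') v = AUR_T2 α u v + AUR_T2 α u' v := by
  simp only [AUR_T2, fo_add_right, add_smul, br_add_left, br_add_right]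
  abel

theorem AUR_T2_add_right (α : Rt C) (u v v' : LV C R) :
    AUR_T2 α u (v + v') = AUR_T2 α u v + AUR_T2 α u v' := by
  simp only [AUR_T2, fo_add_right, add_smul, br_add_left, br_add_right]
  abel

theorem AUR_T2_smul_left (α : Rt C) (a : R) (u v : LV C R) : AUR_T2 α (a • u) v = a • AUR_T2 α u v := by
  simp only [AUR_T2, fo_smul_right, br_smul_left, br_smul_right, smul_add, smul_smul, mul_comm a]

theorem AUR_T2_smul_right (α : Rt C) (a : R) (u v : LV C R) : AUR_T2 α u (a • v) = a • AUR_T2 α u v := by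
  simp only [AUR_T2, fo_smul_right, br_smul_left, br_smul_right, smul_add, smul_smul, mul_comm a]

theorem AUR_T1_c (α : Rt C) (u v : LV C ℤ) : AUR_T1 α (AUR_c R u) (AUR_c R v) = AUR_c R (AUR_T1 α u v) := by
  have hsub : ∀ a b : LV C ℤ, AUR_c R (a - b) = AUR_c R a - AUR_c R b := by
    intro a b
    ext δ <;> simp [AUR_c]
  simp only [AUR_T1, hsub, AUR_c_add, AUR_br, AUR_c_smul, AUR_ev, ← AUR_fo]

theorem AUR_T2_c (α : Rt C) (u v : LV C ℤ) : AUR_T2 α (AUR_c R u) (AUR_c R v) = AUR_c R (AUR_T2 α u v) := by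
  simp only [AUR_T2, AUR_c_add, AUR_br, AUR_c_smul, AUR_ev, ← AUR_fo]

/-- a bilinear map which vanishes on integral vectors vanishes -/
theorem AUR_ext2 (T : LV C R → LV C R → LV C R) (h1 : ∀ u u' v, T (u + u') v = T u v + T u' v)
    (h2 : ∀ u v v', T u (v + v') = T u v + T u v') (h3 : ∀ (a : R) u v, T (a • u) v = a • T u v)
    (h4 : ∀ (a : R) u v, T u (a • v) = a • T u v) (h0 : ∀ u v : LV C ℤ, T (AUR_c R u) (AUR_c R v) = 0)
    (u v : LV C R) : T u v = 0 := by
  have hz1 : ∀ v, T 0 v = 0 := by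
    intro v
    have := h3 0 0 v
    rwa [zero_smul, zero_smul] at this
  have hz2 : ∀ u, T u 0 = 0 := by
    intro u
    have := h4 0 u 0
    rwa [zero_smul, zero_smul] at this
  have hs : ∀ (i : Fin n) (t : R), ((Pi.single i t, 0) : LV C R) = t • AUR_c R ((Pi.single i 1, 0) : LV C ℤ) := by
    intro i t
    rw [AUR_single]
    ext δ
    · simp [Pi.single_apply]
    · simp
  have he : ∀ (α : Rt C) (t : R), ev C α t = t • AUR_c R (ev C α 1 : LV C ℤ) := by
    intro α t
    rw [AUR_ev, ← ev_eq]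
  have key : ∀ (u0 : LV C ℤ) (v : LV C R), T (AUR_c R u0) v = 0 := by
    intro u0 v
    refine LV_ind (P := fun v => T (AUR_c R u0) v = 0) ?_ ?_ ?_ ?_ v
    · exact hz2 _
    · intro a b ha hb
      rw [h2, ha, hb, add_zero]
    · intro i t
      rw [hs, h4, h0, smul_zero]
    · intro α t
      rw [he, h4, h0, smul_zero]
  refine LV_ind (P := fun u => T u v = 0) ?_ ?_ ?_ ?_ u
  · exact hz1 _
  · intro a b ha hb
    rw [h1, ha, hb, add_zero]
  · intro i t
    rw [hs, h3, key, smul_zero]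
  · intro α t
    rw [he, h3, key, smul_zero]

end

theorem AUR (hAUZ : AUZ_stmt) : AUR_stmt := by
  intro n C hC R _ α u v
  constructor
  · have h := AUR_ext2 (R := R) (AUR_T1 (C := C) α) (AUR_T1_add_left α) (AUR_T1_add_right α)
      (AUR_T1_smul_left α) (AUR_T1_smul_right α) (fun u0 v0 => by
        have e : AUR_T1 α u0 v0 = 0 := sub_eq_zero.2 (hAUZ C α u0 v0).1
        rw [AUR_T1_c, e, AUR_c_zero]) u v
    exact sub_eq_zero.1 h
  · exact AUR_ext2 (R := R) (AUR_T2 (C := C) α) (AUR_T2_add_left α) (AUR_T2_add_right α)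
      (AUR_T2_smul_left α) (AUR_T2_smul_right α) (fun u0 v0 => by
        have e : AUR_T2 α u0 v0 = 0 := (hAUZ C α u0 v0).2
        rw [AUR_T2_c, e, AUR_c_zero]) u v

end

end Pool.Agent.EX
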